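import Pool.Agent.Lib.MP_a966e6_co.PNU.Loc
import Pool.Agent.Lib.MP_a966e6_co.PNU.Fin4
import Pool.Agent.Lib.MP_a966e6_co.PNU.BaseN

/-!
# The local and the union page number of complete graphs

For every `n ≥ 2` we have `pn_l(K_n) = ⌈n / 3⌉`, and `pn_u(K_n) = ⌈n / 3⌉` except for
`n = 5, 6, 9, 12, 15`, where `pn_u(K_n) = ⌈n / 3⌉ + 1`.

The definitions are in `Pool.Agent.Lib.MP_a966e6_co.PNU.Defs`.
-/

set_option autoImplicit false

namespace Pool.Agent.Results.MP_a966e6_co.FullAnswer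

open Pool.Agent.Lib.MP_a966e6_co.PNU

/-- The local page number of `K_n` is `⌈n / 3⌉`, the union page number of `K_n` is `⌈n / 3⌉`
except for `n = 5, 6, 9, 12, 15`, where it is `⌈n / 3⌉ + 1`. -/
theorem result (n : ℕ) (hn : 2 ≤ n) :
    localPageNumber (⊤ : SimpleGraph (Fin n)) = (n + 2) / 3 ∧
    unionPageNumber (⊤ : SimpleGraph (Fin n)) =
      (n + 2) / 3 + (if n = 5 ∨ n = 6 ∨ n = 9 ∨ n = 12 ∨ n = 15 then 1 else 0) :=
  ⟨Loc.localPN n hn, union_all4 [] (fun k hk _ => baseN k hk) (by simp) n hn (by simp)⟩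

end Pool.Agent.Results.MP_a966e6_co.FullAnswer
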